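import Pool.Agent.Y957.VK.Un4
import Pool.Agent.Y957.VK.Fin2a

/-!
# Uniform Möbius disjointness of horocycle flows on geodesic segments

Let `h` and `a` be continuous flows on a topological space `X` with
`h t ∘ a s = a s ∘ h (exp (c s) t)` for a constant `c ≠ 0`, for example the horocycle flow
`h t x = x u_t` and the geodesic flow `a s x = x diag (e^{-s}, e^{s})` on `X = Γ \ SL_2(ℝ)`, `c = -2`.

For every continuous function `f` which vanishes at infinity and every `ε > 0` there is `N₀` such that for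
all `N ≥ N₀` and all points `x`: the average of `μ(n) f (h n (a s x))` over `n ≤ N` is smaller than `ε`
in absolute value for all `s` in `[0, 1]` outside a set of measure at most `ε`.
-/

set_option autoImplicit false

namespace Pool.Agent.Results.MP_c9c104_nt.UniformGeodesicSegments

open MeasureTheory Filter Topology

/-- a continuous flow -/
structure IsFlow {X : Type} [TopologicalSpace X] (h : ℝ → X → X) : Prop where
  zero : ∀ x, h 0 x = x
  add : ∀ s t x, h (s + t) x = h s (h t x)
  cont : Continuous fun p : ℝ × X => h p.1 p.2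

/-- Uniform Möbius disjointness on segments of the renormalizing flow -/
theorem result {X : Type} [TopologicalSpace X] (h a : ℝ → X → X) (hh : IsFlow h) (ha : IsFlow a)
    (c : ℝ) (hc : c ≠ 0) (hrel : ∀ s t x, h t (a s x) = a s (h (Real.exp (c * s) * t) x))
    (f : X → ℂ) (hf : Continuous f) (hf0 : Tendsto f (cocompact X) (𝓝 0)) (ε : ℝ) (hε : 0 < ε) :
    ∃ N₀ : ℕ, ∀ N : ℕ, N₀ ≤ N → ∀ x : X,
      volume {s : ℝ | s ∈ Set.Icc 0 1 ∧ ε ≤ ‖(1 / (N : ℂ)) *
        ∑ n ∈ Finset.Icc 1 N, (ArithmeticFunction.moebius n : ℂ) * f (h n (a s x))‖} ≤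
        ENNReal.ofReal ε := by
  obtain ⟨N₀, h0⟩ := Pool.Agent.Y957.Un.flows0 h a ⟨hh.zero, hh.add⟩ ⟨ha.zero, ha.add⟩ hh.cont ha.cont c hc hrel
    (fun n => ((ArithmeticFunction.moebius n : ℤ) : ℂ)) (fun n => by
      rw [Complex.norm_intCast]
      exact_mod_cast ArithmeticFunction.abs_moebius_le_one) Pool.Agent.Y957.VK.neg_mu f hf hf0 ε hε
  refine ⟨N₀, fun N hN x => ?_⟩
  have h1 := h0 N hN x
  rw [Measure.restrict_apply' measurableSet_Icc, Set.inter_comm] at h1
  exact h1

end Pool.Agent.Results.MP_c9c104_nt.UniformGeodesicSegments
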